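import Pool.Agent.H496.TW.A

/-!
Project TW (page MP_eba1ef_gt): part A, small asymmetry (`lam ≤ 2`): `partA : S_A`.  helper496.
-/

set_option autoImplicit false

namespace Pool.Agent.H496.TW

open Pool.Agent.H332.HT (V2 V3)
open Pool.Agent.H221.TW (Ov AX MC S_plc S_A)

theorem partA : S_A := by
  intro hplc K lam n a hM hl
  have hcpt := hM.cpt
  have hcv := hM.cvx
  have h0 := hM.int
  have h0K : (0 : V3) ∈ K := interior_subset h0
  have hlam : 0 < lam := lt_of_lt_of_le one_pos hM.one
  have hcen := hM.cen
  set f : V3 →ₗ[ℝ] ℝ := -(n 0) with hf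
  have hfy : ∀ y, f y = -(n 0 y) := fun y => rfl
  have hf2 : ∀ y ∈ K, -1 ≤ f y := by
    intro y hy
    have := hM.le 0 y hy
    rw [hfy]
    linarith
  have hf1 : ∀ y ∈ K, f y ≤ lam := by
    intro y hy
    have := hf2 _ (hcen y hy)
    rw [map_neg, map_smul, smul_eq_mul] at this
    have h3 : 1 / lam * f y ≤ 1 := by linarith
    rw [one_div, inv_mul_le_iff₀ hlam] at h3
    linarith
  obtain ⟨y0, hy0, hfy0⟩ := hM.far 0
  have hfy0' : f y0 = lam := by rw [hfy, hfy0, neg_neg]
  have hfne : f ≠ 0 := by
    intro h
    rw [h] at hfy0'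
    simp at hfy0'
    linarith
  have hfcont : Continuous f := f.continuous_of_finiteDimensional
  set F : Set V3 := K ∩ {y | f y = lam} with hF
  have hFc : IsCompact F := hcpt.inter_right (isClosed_eq hfcont continuous_const)
  have hFv : Convex ℝ F := by
    refine hcv.inter ?_
    intro y hy z hz s t hs ht hst
    show f (s • y + t • z) = lam
    rw [map_add, map_smul, map_smul, hy, hz, smul_eq_mul, smul_eq_mul, ← add_mul, hst, one_mul]
  obtain ⟨p, hp, hpc⟩ := hplc F hFc hFv ⟨y0, hy0, hfy0'⟩ f hfne lam (fun y hy => hy.2)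
  have hpK : p ∈ K := hp.1
  have hfp : f p = lam := hp.2
  by_cases hall : ∀ y ∈ K, f y = lam → Ov K (p - (-((1 / lam) • p))) y
  · -- the far face misses the boundary of the shadow
    refine ⟨f, p, -((1 / lam) • p), 0, ?_⟩
    have hfS : f (-((1 / lam) • p)) = -1 := by
      rw [map_neg, map_smul, hfp, smul_eq_mul]
      field_simp
    refine
      { memN := hpK
        memS := hcen p hpK
        hN := fun y hy => by rw [hfp]; exact hf1 y hy
        hS := fun y hy => by rw [hfS]; exact hf2 y hy
        hlt := by rw [hfp, hfS]; linarith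
        seg := ?_
        int := h0
        cen := ?_
        sep := Or.inr ?_
        ful := ?_ }
    · refine ⟨1 / (1 + lam), lam / (1 + lam), by positivity, by positivity, by field_simp, ?_⟩
      have : (1 / (1 + lam)) • p + (lam / (1 + lam)) • (-((1 / lam) • p)) =
          (1 / (1 + lam) - lam / (1 + lam) * (1 / lam)) • p := by module
      rw [this]
      have h2 : (1 / (1 + lam) - lam / (1 + lam) * (1 / lam)) = 0 := by
        field_simp
        ring
      rw [h2, zero_smul]
    · intro y hy
      have h := hcv (hcen y hy) h0K (a := 10 / 31 * lam) (b := 1 - 10 / 31 * lam)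
        (by positivity) (by linarith) (by ring)
      have heq : (10 / 31 * lam) • (-((1 / lam) • y)) + (1 - 10 / 31 * lam) • (0 : V3) =
          0 - (10 / 31 : ℝ) • (y - 0) := by
        have : (10 / 31 * lam) * (1 / lam) = 10 / 31 := by field_simp
        rw [smul_zero, add_zero, smul_neg, smul_smul, this]
        module
      rw [heq] at h
      exact h
    · intro y hy hfy'
      exact hall y hy (by rw [hfy', hfp])
    · intro y hy hfy' _
      exact hall y hy (by rw [hfy', hfp])
  · push Not at hall
    obtain ⟨x, hxK, hfx, hnov⟩ := hall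
    have hno : ∀ s : ℝ, x + s • (p - (-((1 / lam) • p))) ∉ interior K := fun s h => hnov ⟨s, h⟩
    obtain ⟨g, hgv, hgx, hgK⟩ := line_sep hcv h0 x _ hno
    have hgp : g p = 0 := by
      rw [map_sub, map_neg, map_smul, smul_eq_mul] at hgv
      have h3 : (1 + 1 / lam) * g p = 0 := by linarith
      rcases mul_eq_zero.1 h3 with h4 | h4
      · have : 0 < 1 + 1 / lam := by positivity
        linarith
      · exact h4
    set y1 : V3 := p - (1 / 2 : ℝ) • (x - p) with hy1
    have hy1F : y1 ∈ F := hpc x ⟨hxK, hfx⟩
    have hgy1 : g y1 = -(1 / 2) := by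
      rw [hy1, map_sub, map_smul, map_sub, hgp, hgx, smul_eq_mul]
      ring
    set S : Set ℝ := {σ | ∀ y ∈ K, f y = lam → -((1 / lam) • (x + σ • (y - x))) ∈ K} with hS
    have hScl : IsClosed S := by
      have hset : S = ⋂ (y : V3) (_ : y ∈ K) (_ : f y = lam),
          {σ : ℝ | -((1 / lam) • (x + σ • (y - x))) ∈ K} := by
        ext σ
        simp [hS]
      rw [hset]
      refine isClosed_iInter fun y => isClosed_iInter fun _ => isClosed_iInter fun _ => ?_
      refine hcpt.isClosed.preimage ?_
      fun_prop
    have hS1 : (1 : ℝ) ∈ S := by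
      intro y hy _
      have : x + (1 : ℝ) • (y - x) = y := by module
      rw [this]
      exact hcen y hy
    have hSb : ∀ σ ∈ S, σ ≤ 2 / 3 * (1 + lam) := by
      intro σ hσ
      have h1 := hgK _ (hσ y1 hy1F.1 hy1F.2)
      rw [map_neg, map_smul, map_add, map_smul, map_sub, hgx, hgy1, smul_eq_mul, smul_eq_mul] at h1
      have h2 : 1 / lam * (-(1 + σ * (-(1 / 2) - 1))) ≤ 1 := by linarith
      rw [one_div, inv_mul_le_iff₀ hlam] at h2
      linarith
    have hSbdd : BddAbove S := ⟨_, hSb⟩
    set σ : ℝ := sSup S with hσ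
    have hσS : σ ∈ S := hScl.csSup_mem ⟨1, hS1⟩ hSbdd
    have hσ1 : 1 ≤ σ := le_csSup hSbdd hS1
    have hσ2 : σ ≤ 2 / 3 * (1 + lam) := hSb σ hσS
    set fc : V3 →L[ℝ] ℝ := LinearMap.toContinuousLinearMap f with hfc
    have hfcy : ∀ y, fc y = f y := fun y => rfl
    have hfe : f ((1 / lam) • p) = 1 := by
      rw [map_smul, hfp, smul_eq_mul]
      field_simp
    obtain ⟨A, m, hAK, hfA, hm1, hme, hm⟩ := contact hcpt hcv fc lam ((1 / lam) • p) x hfe hxK hfx
      hcen σ (by
        intro τ hτ
        have hτS : τ ∉ S := fun h => absurd (le_csSup hSbdd h) (not_le.2 hτ)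
        simp only [hS, Set.mem_setOf_eq, not_forall] at hτS
        obtain ⟨y, hy, h1, h2⟩ := hτS
        exact ⟨y, hy, h1, h2⟩)
    have hfA' : f A = lam := hfA
    set c : V3 := x + σ • (A - x) with hc
    have hfc' : f c = lam := by
      rw [hc, map_add, map_smul, map_sub, hfA', hfx]
      simp
    set B : V3 := -((1 / lam) • c) with hB
    have hBK : B ∈ K := hσS A hAK hfA'
    have hfB : f B = -1 := by
      rw [hB, map_neg, map_smul, hfc', smul_eq_mul]
      field_simp
    have hmA0 : ∀ y ∈ K, f y = lam → m y ≤ m A := by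
      intro y hy hfy'
      have h1 := hm (x + σ • (y - x)) (by
        rw [hfcy, map_add, map_smul, map_sub, hfy', hfx]
        simp) (hσS y hy hfy')
      rw [map_add, map_add, map_smul, map_smul, map_sub, map_sub, smul_eq_mul, smul_eq_mul] at h1
      have hσ0 : 0 < σ := by linarith
      by_contra hcon
      push Not at hcon
      nlinarith
    have hmB0 : ∀ y ∈ K, f y = -1 → m B ≤ m y := by
      intro y hy hfy'
      have h1 := hm (-(lam • y)) (by
        rw [hfcy, map_neg, map_smul, hfy', smul_eq_mul]
        ring) (by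
        have : -((1 / lam) • (-(lam • y))) = y := by
          rw [smul_neg, neg_neg, smul_smul]
          have : 1 / lam * lam = 1 := by field_simp
          rw [this, one_smul]
        rw [this]
        exact hy)
      rw [map_neg, map_smul, smul_eq_mul] at h1
      rw [hB, map_neg, map_smul, smul_eq_mul]
      have h2 : 1 / lam * (-(lam * m y)) ≤ 1 / lam * m c :=
        mul_le_mul_of_nonneg_left h1 (by positivity)
      have h3 : 1 / lam * (-(lam * m y)) = -(m y) := by
        field_simp
      linarith
    set μ : ℝ := (m A - m B) / (lam + 1) with hμ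
    set m' : V3 →ₗ[ℝ] ℝ := (m : V3 →ₗ[ℝ] ℝ) - μ • f with hm'
    have hm'y : ∀ y, m' y = m y - μ * f y := fun y => rfl
    have hm'AB : m' A = m' B := by
      rw [hm'y, hm'y, hfA', hfB, hμ]
      field_simp
      ring
    obtain ⟨u, hu⟩ : ∃ u, m u ≠ 0 := by
      by_contra hcon
      push Not at hcon
      have : m = 0 := ContinuousLinearMap.ext hcon
      rw [this] at hm1
      simp at hm1
    set v : V3 := u - f u • ((1 / lam) • p) with hv
    have hfv : f v = 0 := by
      rw [hv, map_sub, map_smul, hfe]
      simp
    have hmv : m' v ≠ 0 := by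
      rw [hm'y, hfv, mul_zero, sub_zero, hv, map_sub, map_smul, hme, smul_zero, sub_zero]
      exact hu
    set t : ℝ := lam / (σ + lam) with ht
    have hσl : 0 < σ + lam := by linarith
    have ht0 : 0 < t := by positivity
    have ht1 : t < 1 := by
      rw [ht, div_lt_one hσl]
      linarith
    set η : ℝ := (σ - 1) / (σ + lam) with hη
    have hη0 : 0 ≤ η := div_nonneg (by linarith) hσl.le
    have hη1 : η < 1 := by
      rw [hη, div_lt_one hσl]
      linarith
    have hη4 : 4 * η ≤ 3 - lam := by
      rw [hη, mul_div_assoc', div_le_iff₀ hσl]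
      nlinarith
    have hw : (1 - t) • A + t • B = η • x := by
      have h1t : 1 - t = σ / (σ + lam) := by
        rw [ht]
        field_simp
        ring
      rw [hB, hc, h1t, ht, hη]
      have e1 : (σ / (σ + lam)) • A + (lam / (σ + lam)) • -((1 / lam) • (x + σ • (A - x))) =
          (σ / (σ + lam) - lam / (σ + lam) * (1 / lam) * σ) • A +
          (lam / (σ + lam) * (1 / lam) * (σ - 1)) • x := by module
      rw [e1]
      have e2 : σ / (σ + lam) - lam / (σ + lam) * (1 / lam) * σ = 0 := by
        field_simp
        ring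
      have e3 : lam / (σ + lam) * (1 / lam) * (σ - 1) = (σ - 1) / (σ + lam) := by
        field_simp
      rw [e2, e3, zero_smul, zero_add]
    have hwi : η • x ∈ interior K := by
      have h := hcv.combo_interior_self_mem_interior h0 hxK (a := 1 - η) (b := η) (by linarith)
        hη0 (by ring)
      rw [smul_zero, zero_add] at h
      exact h
    have hwc : ∀ y ∈ K, η • x - (1 / 3 : ℝ) • (y - η • x) ∈ K := by
      intro y hy
      have hmem : (lam / 3) • (-((1 / lam) • y)) + (4 / 3 * η) • x ∈ K := by
        have h1 : (lam / 3) • (-((1 / lam) • y)) + (4 / 3 * η) • x +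
            (1 - lam / 3 - 4 / 3 * η) • (0 : V3) ∈ K := by
          have hz : ∀ i ∈ (Finset.univ : Finset (Fin 3)),
              0 ≤ (![lam / 3, 4 / 3 * η, 1 - lam / 3 - 4 / 3 * η] : Fin 3 → ℝ) i := by
            intro i _
            fin_cases i
            · show 0 ≤ lam / 3
              positivity
            · show 0 ≤ 4 / 3 * η
              positivity
            · show 0 ≤ 1 - lam / 3 - 4 / 3 * η
              linarith
          have hsum := hcv.sum_mem (t := (Finset.univ : Finset (Fin 3)))
            (w := ![lam / 3, 4 / 3 * η, 1 - lam / 3 - 4 / 3 * η])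
            (z := ![-((1 / lam) • y), x, (0 : V3)]) hz
            (by
              rw [Fin.sum_univ_three]
              show lam / 3 + 4 / 3 * η + (1 - lam / 3 - 4 / 3 * η) = 1
              ring)
            (by
              intro i _
              fin_cases i
              · exact hcen y hy
              · exact hxK
              · exact h0K)
          rw [Fin.sum_univ_three] at hsum
          exact hsum
        rw [smul_zero, add_zero] at h1
        exact h1
      have heq : (lam / 3) • (-((1 / lam) • y)) + (4 / 3 * η) • x =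
          η • x - (1 / 3 : ℝ) • (y - η • x) := by
        have e1 : lam / 3 * (1 / lam) = 1 / 3 := by
          field_simp
        rw [smul_neg, smul_smul, e1]
        module
      rw [heq] at hmem
      exact hmem
    obtain ⟨N, w', hAX⟩ := shift hcv f m' lam t hlam ((1 / lam) • p) v A B (η • x) hfe hfv hmv
      hAK hBK hfA' hfB hm'AB hf1 hf2
      (by
        intro y hy hfy'
        rw [hm'y, hm'y, hfy', hfA']
        have := hmA0 y hy hfy'
        linarith)
      (by
        intro y hy hfy'
        rw [hm'y, hm'y, hfy', hfB]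
        have := hmB0 y hy hfy'
        linarith)
      ht0 ht1 hw.symm hwi hwc
    exact ⟨f, N, B, w', hAX⟩

end Pool.Agent.H496.TW
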