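import Mathlib

/-!
Project TW (page MP_eba1ef_gt): separation lemmas for part A (tilted axis).  helper496.
-/

set_option autoImplicit false

namespace Pool.Agent.H496.TW

abbrev W3 := (ℝ × ℝ) × ℝ

/-- a line through `x ∈ K` which misses the interior of `K` -/
theorem line_sep {K : Set W3} (hcv : Convex ℝ K) (h0 : (0 : W3) ∈ interior K) (x v : W3)
    (hno : ∀ s : ℝ, x + s • v ∉ interior K) :
    ∃ g : W3 →L[ℝ] ℝ, g v = 0 ∧ g x = 1 ∧ ∀ y ∈ K, g y ≤ 1 := by
  have hcl : Convex ℝ (Set.range fun s : ℝ => x + s • v) := by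
    rintro _ ⟨s, rfl⟩ _ ⟨t, rfl⟩ a b ha hb hab
    refine ⟨a * s + b * t, ?_⟩
    have hb' : b = 1 - a := by linarith
    subst hb'
    module
  have hdis : Disjoint (interior K) (Set.range fun s : ℝ => x + s • v) := by
    rw [Set.disjoint_left]
    rintro y hy ⟨s, rfl⟩
    exact hno s hy
  obtain ⟨g, u, h1, h2⟩ := geometric_hahn_banach_open hcv.interior isOpen_interior hcl hdis
  have hu : 0 < u := by
    have := h1 0 h0
    simpa using this
  have hline : ∀ s : ℝ, u ≤ g x + s * g v := by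
    intro s
    have := h2 _ ⟨s, rfl⟩
    simpa using this
  have hv : g v = 0 := by
    by_contra hne
    have := hline ((-1 - g x) / g v)
    rw [div_mul_cancel₀ _ hne] at this
    linarith
  have hx : u ≤ g x := by simpa using hline 0
  have hgx : 0 < g x := lt_of_lt_of_le hu hx
  have hK : ∀ y ∈ K, g y ≤ u := by
    intro y hy
    have hyc : y ∈ closure (interior K) := by
      have hne : (interior K).Nonempty := ⟨0, h0⟩
      rw [hcv.closure_interior_eq_closure_of_nonempty_interior hne]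
      exact subset_closure hy
    have hcl2 : IsClosed {z : W3 | g z ≤ u} := isClosed_le g.continuous continuous_const
    have hsub : interior K ⊆ {z : W3 | g z ≤ u} := fun z hz => (h1 z hz).le
    exact closure_minimal hsub hcl2 hyc
  refine ⟨(g x)⁻¹ • g, ?_, ?_, ?_⟩
  · simp [hv]
  · simp [hgx.ne']
  · intro y hy
    have : g y ≤ g x := (hK y hy).trans hx
    simp only [ContinuousLinearMap.smul_apply, smul_eq_mul]
    rw [inv_mul_le_iff₀ hgx]
    linarith

/-- separation inside the plane `f = lam` -/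
theorem plane_sep {K : Set W3} (hcpt : IsClosed K) (hcv : Convex ℝ K) (f : W3 →L[ℝ] ℝ)
    (lam : ℝ) (e Z z₀ : W3) (he : f e = 1) (hZ : f Z = lam) (hz₀ : f z₀ = lam)
    (hz₀K : -((1 / lam) • z₀) ∈ K) (hZK : -((1 / lam) • Z) ∉ K) :
    ∃ m : W3 →L[ℝ] ℝ, ‖m‖ = 1 ∧ m e = 0 ∧
      ∀ z : W3, f z = lam → -((1 / lam) • z) ∈ K → m z ≤ m Z := by
  set π : W3 → W3 := fun z => -((1 / lam) • (z - (f z - lam) • e)) with hπ
  have hπc : Continuous π := by
    have := f.continuous
    fun_prop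
  have hS : Convex ℝ (π ⁻¹' K) := by
    intro y hy z hz a b ha hb hab
    have h := hcv hy hz ha hb hab
    have heq : a • π y + b • π z = π (a • y + b • z) := by
      simp only [hπ, map_add, map_smul, smul_eq_mul]
      have hb' : b = 1 - a := by linarith
      subst hb'
      module
    rw [heq] at h
    exact h
  have hcl : IsClosed (π ⁻¹' K) := hcpt.preimage hπc
  have hplane : ∀ z : W3, f z = lam → π z = -((1 / lam) • z) := by
    intro z hz
    simp [hπ, hz]
  have hZn : Z ∉ π ⁻¹' K := by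
    intro h
    apply hZK
    rw [← hplane Z hZ]
    exact h
  obtain ⟨g, u, h1, h2⟩ := geometric_hahn_banach_closed_point hS hcl hZn
  have hinv : ∀ (z : W3) (s : ℝ), π (z + s • e) = π z := by
    intro z s
    simp only [hπ, map_add, map_smul, smul_eq_mul, he]
    congr 2
    module
  have hz₀S : z₀ ∈ π ⁻¹' K := by
    show π z₀ ∈ K
    rw [hplane z₀ hz₀]
    exact hz₀K
  have hline : ∀ s : ℝ, g z₀ + s * g e < u := by
    intro s
    have : z₀ + s • e ∈ π ⁻¹' K := by
      show π (z₀ + s • e) ∈ K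
      rw [hinv]
      exact hz₀S
    have := h1 _ this
    simpa using this
  have hge : g e = 0 := by
    by_contra hne
    have := hline ((u + 1 - g z₀) / g e)
    rw [div_mul_cancel₀ _ hne] at this
    linarith
  have hgne : g ≠ 0 := by
    rintro rfl
    have ha := h1 z₀ hz₀S
    simp at ha h2
    linarith
  have hn : 0 < ‖g‖ := norm_pos_iff.2 hgne
  refine ⟨‖g‖⁻¹ • g, ?_, ?_, ?_⟩
  · rw [norm_smul, norm_inv, norm_norm, inv_mul_cancel₀ hn.ne']
  · simp [hge]
  · intro z hz hzK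
    have hzS : z ∈ π ⁻¹' K := by
      show π z ∈ K
      rw [hplane z hz]
      exact hzK
    have h3 : g z ≤ g Z := ((h1 z hzS).trans h2).le
    simp only [ContinuousLinearMap.smul_apply, smul_eq_mul]
    exact mul_le_mul_of_nonneg_left h3 (inv_nonneg.2 hn.le)

/-- the contact of the far face and the near face -/
theorem contact {K : Set W3} (hcpt : IsCompact K) (hcv : Convex ℝ K) (f : W3 →L[ℝ] ℝ)
    (lam : ℝ) (e x : W3) (he : f e = 1) (hx : x ∈ K) (hfx : f x = lam)
    (hcen : ∀ y ∈ K, -((1 / lam) • y) ∈ K) (σ : ℝ)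
    (hσ : ∀ τ : ℝ, σ < τ → ∃ y ∈ K, f y = lam ∧ -((1 / lam) • (x + τ • (y - x))) ∉ K) :
    ∃ (a : W3) (m : W3 →L[ℝ] ℝ), a ∈ K ∧ f a = lam ∧ ‖m‖ = 1 ∧ m e = 0 ∧
      ∀ z : W3, f z = lam → -((1 / lam) • z) ∈ K → m z ≤ m (x + σ • (a - x)) := by
  set B : Set (ℝ × W3 × (W3 →L[ℝ] ℝ)) :=
    (Set.Icc σ (σ + 1)) ×ˢ ((K ∩ {y | f y = lam}) ×ˢ (Metric.sphere (0 : W3 →L[ℝ] ℝ) 1)) with hB
  have hBc : IsCompact B := by
    refine isCompact_Icc.prod (IsCompact.prod ?_ (isCompact_sphere _ _))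
    exact hcpt.inter_right (isClosed_eq f.continuous continuous_const)
  set D : Set (ℝ × W3 × (W3 →L[ℝ] ℝ)) := {q | q.2.2 e = 0 ∧
    ∀ z : W3, f z = lam → -((1 / lam) • z) ∈ K → q.2.2 z ≤ q.2.2 (x + q.1 • (q.2.1 - x))} with hD
  have hDc : IsClosed D := by
    have h22 : Continuous fun q : ℝ × W3 × (W3 →L[ℝ] ℝ) => q.2.2 := by fun_prop
    have hset : D = {q | q.2.2 e = 0} ∩ ⋂ (z : W3) (_ : f z = lam) (_ : -((1 / lam) • z) ∈ K),
        {q | q.2.2 z ≤ q.2.2 (x + q.1 • (q.2.1 - x))} := by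
      ext q
      simp [hD]
    rw [hset]
    refine IsClosed.inter (isClosed_eq (h22.clm_apply continuous_const) continuous_const) ?_
    refine isClosed_iInter fun z => isClosed_iInter fun _ => isClosed_iInter fun _ => ?_
    refine isClosed_le (h22.clm_apply continuous_const) (h22.clm_apply ?_)
    fun_prop
  have hC : IsCompact (B ∩ D) := hBc.inter_right hDc
  have hI : IsClosed (Prod.fst '' (B ∩ D)) := (hC.image continuous_fst).isClosed
  have hsub : Set.Ioc σ (σ + 1) ⊆ Prod.fst '' (B ∩ D) := by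
    intro τ hτ
    obtain ⟨y, hy, hfy, hny⟩ := hσ τ hτ.1
    have hfZ : f (x + τ • (y - x)) = lam := by
      simp [hfx, hfy]
    obtain ⟨m, hm1, hme, hm⟩ := plane_sep hcpt.isClosed hcv f lam e (x + τ • (y - x)) x he hfZ hfx
      (hcen x hx) hny
    refine ⟨(τ, y, m), ⟨⟨⟨hτ.1.le, hτ.2⟩, ⟨hy, hfy⟩, ?_⟩, hme, hm⟩, rfl⟩
    simpa using hm1
  have hmem : σ ∈ Prod.fst '' (B ∩ D) := by
    have h1 : σ ∈ closure (Set.Ioc σ (σ + 1)) := by
      rw [closure_Ioc (by linarith)]
      exact ⟨le_refl _, by linarith⟩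
    exact closure_minimal hsub hI h1
  obtain ⟨⟨s, a, m⟩, ⟨⟨hs, ⟨haK, hfa⟩, hm⟩, hme, hmm⟩, hs'⟩ := hmem
  simp only at hs'
  subst hs'
  refine ⟨a, m, haK, hfa, by simpa using hm, hme, hmm⟩

end Pool.Agent.H496.TW
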