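import Pool.Agent.H221.TW.Stm
import Pool.Agent.H496.TW.Sep

/-!
Project TW (page MP_eba1ef_gt): part A, small asymmetry (`lam ≤ 2`), the tilted axis.  helper496.
-/

set_option autoImplicit false

namespace Pool.Agent.H496.TW

open Pool.Agent.H332.HT (V2 V3)
open Pool.Agent.H221.TW (Ov AX MC S_plc S_A)

/-- centre of ratio 3 at an interior point gives ratio `31/10` at nearby points -/
theorem near {K : Set V3} (hcv : Convex ℝ K) (w : V3) (hw : w ∈ interior K)
    (hc : ∀ y ∈ K, w - (1 / 3 : ℝ) • (y - w) ∈ K) :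
    ∃ r : ℝ, 0 < r ∧ ∀ w' : V3, ‖w' - w‖ < r → w' ∈ interior K ∧
      ∀ y ∈ K, w' - (10 / 31 : ℝ) • (y - w') ∈ K := by
  obtain ⟨r0, hr0, hb⟩ := Metric.isOpen_iff.1 isOpen_interior w hw
  refine ⟨r0 / 41, by positivity, ?_⟩
  intro w' hw'
  have h1 : w' ∈ interior K := by
    apply hb
    rw [Metric.mem_ball, dist_eq_norm]
    linarith
  refine ⟨h1, ?_⟩
  intro y hy
  have hk : w + (41 : ℝ) • (w' - w) ∈ K := by
    apply interior_subset
    apply hb
    rw [Metric.mem_ball, dist_eq_norm]
    have : w + (41 : ℝ) • (w' - w) - w = (41 : ℝ) • (w' - w) := by abel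
    rw [this, norm_smul, Real.norm_eq_abs, abs_of_pos (by norm_num : (0 : ℝ) < 41)]
    linarith
  have h2 := hcv (hc y hy) hk (a := 30 / 31) (b := 1 / 31) (by norm_num) (by norm_num) (by norm_num)
  have heq : (30 / 31 : ℝ) • (w - (1 / 3 : ℝ) • (y - w)) + (1 / 31 : ℝ) • (w + (41 : ℝ) • (w' - w))
      = w' - (10 / 31 : ℝ) • (y - w') := by module
  rw [heq] at h2
  exact h2

/-- three values of the shift are enough -/
theorem exists_eps (Up Down : ℝ → Prop) (hU : ∀ s t, Up s → Up t → s = t)
    (hD : ∀ s t, Down s → Down t → s = t) (r : ℝ) (hr : 0 < r) :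
    ∃ ε : ℝ, 0 < ε ∧ ε ≤ r ∧ ¬ Up ε ∧ ¬ Down ε := by
  by_contra hcon
  have h : ∀ ε : ℝ, 0 < ε → ε ≤ r → Up ε ∨ Down ε := by
    intro ε h1 h2
    by_contra h3
    rw [not_or] at h3
    exact hcon ⟨ε, h1, h2, h3.1, h3.2⟩
  have h1 := h r hr le_rfl
  have h2 := h (r / 2) (by positivity) (by linarith)
  have h3 := h (r / 3) (by positivity) (by linarith)
  rcases h1 with h1 | h1 <;> rcases h2 with h2 | h2 <;> rcases h3 with h3 | h3
  · have := hU _ _ h1 h2; linarith
  · have := hU _ _ h1 h2; linarith
  · have := hU _ _ h1 h3; linarith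
  · have := hD _ _ h2 h3; linarith
  · have := hU _ _ h2 h3; linarith
  · have := hD _ _ h1 h3; linarith
  · have := hD _ _ h1 h2; linarith
  · have := hD _ _ h1 h2; linarith

/-- the common kernel of `f` and `m` is a line -/
theorem ker_line (f m : V3 →ₗ[ℝ] ℝ) (e v d : V3) (he : f e = 1) (hv : f v = 0) (hmv : m v ≠ 0)
    (hd : d ≠ 0) (hfd : f d = 0) (hmd : m d = 0) (y : V3) (hfy : f y = 0) (hmy : m y = 0) :
    ∃ u : ℝ, y = u • d := by
  set L : V3 →ₗ[ℝ] (ℝ × ℝ) := f.prod m with hL
  have hLy : ∀ y, L y = (f y, m y) := fun y => rfl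
  have hsurj : Function.Surjective L := by
    rintro ⟨α, β⟩
    refine ⟨α • e + ((β - α * m e) / m v) • v, ?_⟩
    rw [hLy, map_add, map_add, map_smul, map_smul, map_smul, map_smul, he, hv]
    simp only [smul_eq_mul, Prod.mk.injEq]
    refine ⟨by ring, ?_⟩
    rw [div_mul_cancel₀ _ hmv]
    ring
  have hr := LinearMap.finrank_range_add_finrank_ker L
  rw [LinearMap.range_eq_top.2 hsurj, finrank_top] at hr
  have h2 : Module.finrank ℝ (ℝ × ℝ) = 2 := by simp
  have h3 : Module.finrank ℝ V3 = 3 := by simp
  rw [h2, h3] at hr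
  have h1 : Module.finrank ℝ (LinearMap.ker L) = 1 := by omega
  have hdk : d ∈ LinearMap.ker L := by
    rw [LinearMap.mem_ker]
    simp [hL, hfd, hmd]
  have hyk : y ∈ LinearMap.ker L := by
    rw [LinearMap.mem_ker]
    simp [hL, hfy, hmy]
  have hne : (⟨d, hdk⟩ : LinearMap.ker L) ≠ 0 := by
    intro h
    apply hd
    simpa using congrArg Subtype.val h
  obtain ⟨c, hc⟩ := (finrank_eq_one_iff_of_nonzero' _ hne).1 h1 ⟨y, hyk⟩
  refine ⟨c, ?_⟩
  have := congrArg Subtype.val hc
  simpa using this.symm

/-- a point between a point over the interior and a point over `K` is over the interior -/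
theorem ov_mix {K : Set V3} (hcv : Convex ℝ K) (v A y y' : V3) (t s θ : ℝ)
    (hA : A - t • v ∈ interior K) (hy' : y' + s • v ∈ K) (h0 : 0 ≤ θ) (h1 : θ < 1)
    (hy : y = (1 - θ) • A + θ • y') : Ov K v y := by
  refine ⟨(1 - θ) * (-t) + θ * s, ?_⟩
  have h := hcv.combo_interior_self_mem_interior hA hy' (a := 1 - θ) (b := θ) (by linarith) h0
    (by linarith)
  have heq : (1 - θ) • (A - t • v) + θ • (y' + s • v) = y + ((1 - θ) * (-t) + θ * s) • v := by
    rw [hy]
    module
  rw [heq] at h
  exact h

/-- the eps shift -/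
theorem shift {K : Set V3} (hcv : Convex ℝ K) (f m : V3 →ₗ[ℝ] ℝ) (lam t : ℝ) (hlam : 0 < lam)
    (e v A B w : V3) (he : f e = 1) (hv : f v = 0) (hmv : m v ≠ 0)
    (hA : A ∈ K) (hB : B ∈ K) (hfA : f A = lam) (hfB : f B = -1) (hm : m A = m B)
    (hf1 : ∀ y ∈ K, f y ≤ lam) (hf2 : ∀ y ∈ K, -1 ≤ f y)
    (hmA : ∀ y ∈ K, f y = lam → m y ≤ m A) (hmB : ∀ y ∈ K, f y = -1 → m B ≤ m y)
    (ht0 : 0 < t) (ht1 : t < 1) (hwt : w = (1 - t) • A + t • B)
    (hw : w ∈ interior K) (hc : ∀ y ∈ K, w - (1 / 3 : ℝ) • (y - w) ∈ K) :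
    ∃ (N w' : V3), AX K f N B w' := by
  obtain ⟨r, hr, hnear⟩ := near hcv w hw hc
  -- the general step
  have key : ∀ N : V3, N ∈ K → f N = lam → m N = m A → ‖((1 - t) • N + t • B) - w‖ < r →
      (∀ y ∈ K, f y = lam → m y = m A → y - (N - B) ∈ K → Ov K (N - B) y) →
      AX K f N B ((1 - t) • N + t • B) := by
    intro N hN hfN hmN hnr hful
    obtain ⟨hi, hcc⟩ := hnear _ hnr
    refine
      { memN := hN
        memS := hB
        hN := fun y hy => by rw [hfN]; exact hf1 y hy
        hS := fun y hy => by rw [hfB]; exact hf2 y hy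
        hlt := by rw [hfN, hfB]; linarith
        seg := ⟨1 - t, t, by linarith, ht0, by ring, rfl⟩
        int := hi
        cen := hcc
        sep := Or.inl ⟨m, by rw [hmN, hm], ⟨v, hv, hmv⟩, ?_, ?_⟩
        ful := ?_ }
    · intro y hy hfy
      left
      rw [hmN]
      exact hmA y hy (by rw [hfy, hfN])
    · intro y hy hfy
      left
      exact hmB y hy (by rw [hfy, hfB])
    · intro y hy hfy hy2
      have hfy' : f y = lam := by rw [hfy, hfN]
      refine hful y hy hfy' ?_ hy2
      have h1 := hmA y hy hfy'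
      have h2 := hmB _ hy2 (by rw [map_sub, map_sub, hfy', hfN, hfB]; ring)
      rw [map_sub, map_sub, hmN] at h2
      linarith
  by_cases hsing : ∀ y ∈ K, f y = lam → m y = m A → y = A
  · refine ⟨A, _, key A hA hfA rfl ?_ ?_⟩
    · rw [← hwt, sub_self, norm_zero]
      exact hr
    · intro y hy hfy hmy _
      rw [hsing y hy hfy hmy]
      refine ⟨-t, ?_⟩
      have : A + (-t) • (A - B) = w := by
        rw [hwt]
        module
      rw [this]
      exact hw
  · push Not at hsing
    obtain ⟨a2, ha2, hfa2, hma2, hne⟩ := hsing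
    set d : V3 := a2 - A with hd
    have hd0 : d ≠ 0 := sub_ne_zero.2 hne
    have hfd : f d = 0 := by rw [hd, map_sub, hfa2, hfA, sub_self]
    have hmd : m d = 0 := by rw [hd, map_sub, hma2, sub_self]
    set Up : ℝ → Prop := fun ε => ∃ u : ℝ, A + (ε + u) • d ∈ K ∧ B + u • d ∈ K ∧
      (∀ s, ε + u < s → A + s • d ∉ K) ∧ (∀ s, u < s → B + s • d ∉ K) with hUp
    set Down : ℝ → Prop := fun ε => ∃ u : ℝ, A + (ε + u) • d ∈ K ∧ B + u • d ∈ K ∧
      (∀ s, s < ε + u → A + s • d ∉ K) ∧ (∀ s, s < u → B + s • d ∉ K) with hDown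
    have hU : ∀ s t, Up s → Up t → s = t := by
      rintro s t ⟨u, h1, h2, h3, h4⟩ ⟨u', h1', h2', h3', h4'⟩
      have e1 : ¬ (s + u < t + u') := fun h => h3 _ h h1'
      have e2 : ¬ (t + u' < s + u) := fun h => h3' _ h h1
      have e3 : ¬ (u < u') := fun h => h4 _ h h2'
      have e4 : ¬ (u' < u) := fun h => h4' _ h h2
      linarith
    have hD : ∀ s t, Down s → Down t → s = t := by
      rintro s t ⟨u, h1, h2, h3, h4⟩ ⟨u', h1', h2', h3', h4'⟩
      have e1 : ¬ (s + u < t + u') := fun h => h3' _ h h1
      have e2 : ¬ (t + u' < s + u) := fun h => h3 _ h h1'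
      have e3 : ¬ (u < u') := fun h => h4' _ h h2
      have e4 : ¬ (u' < u) := fun h => h4 _ h h2'
      linarith
    have hnd : 0 < ‖d‖ := norm_pos_iff.2 hd0
    obtain ⟨ε, hε0, hε1, hnU, hnD⟩ := exists_eps Up Down hU hD (min 1 (r / (2 * ‖d‖)))
      (lt_min one_pos (by positivity))
    have hεle : ε ≤ 1 := hε1.trans (min_le_left _ _)
    have hεr : ε * ‖d‖ < r := by
      have h : ε ≤ r / (2 * ‖d‖) := hε1.trans (min_le_right _ _)
      rw [le_div_iff₀ (by positivity)] at h
      nlinarith
    have hN : A + ε • d ∈ K := by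
      have h := hcv hA ha2 (a := 1 - ε) (b := ε) (by linarith) hε0.le (by ring)
      have heq : (1 - ε) • A + ε • a2 = A + ε • d := by
        rw [hd]
        module
      rw [heq] at h
      exact h
    have hNn : ‖((1 - t) • (A + ε • d) + t • B) - w‖ < r := by
      have heq : ((1 - t) • (A + ε • d) + t • B) - w = ((1 - t) * ε) • d := by
        rw [hwt]
        module
      rw [heq, norm_smul, Real.norm_eq_abs, abs_of_nonneg (mul_nonneg (by linarith) hε0.le)]
      have : (1 - t) * ε * ‖d‖ ≤ ε * ‖d‖ := by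
        have : (1 - t) * (ε * ‖d‖) ≤ 1 * (ε * ‖d‖) :=
          mul_le_mul_of_nonneg_right (by linarith) (by positivity)
        linarith
      linarith
    refine ⟨A + ε • d, _, key (A + ε • d) hN (by rw [map_add, map_smul, hfd, hfA]; simp)
      (by rw [map_add, map_smul, hmd]; simp) hNn ?_⟩
    intro y hy hfy hmy hyz
    set N : V3 := A + ε • d with hNdef
    obtain ⟨hi, _⟩ := hnear _ hNn
    have hi' : N - t • (N - B) ∈ interior K := by
      have : N - t • (N - B) = (1 - t) • N + t • B := by module
      rw [this]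
      exact hi
    obtain ⟨u, hu⟩ := ker_line f m e v d he hv hmv hd0 hfd hmd (y - N)
      (by rw [map_sub, hfy, hNdef, map_add, map_smul, hfd, hfA]; simp)
      (by rw [map_sub, hmy, hNdef, map_add, map_smul, hmd]; simp)
    have hyN : y = N + u • d := by rw [← hu]; abel
    have hyA : y = A + (ε + u) • d := by rw [hyN, hNdef]; module
    have hzB : y - (N - B) = B + u • d := by rw [hyN]; abel
    rw [hzB] at hyz
    rw [hyA] at hy
    rcases lt_trichotomy u 0 with hu0 | hu0 | hu0
    · -- u < 0
      by_contra hno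
      apply hnD
      refine ⟨u, hy, hyz, ?_, ?_⟩
      · intro s hs hsK
        apply hno
        have hpos : 0 < ε - s := by linarith
        refine ov_mix hcv (N - B) N y (A + s • d) t 0 (-u / (ε - s)) hi' (by simpa using hsK)
          (div_nonneg (by linarith) hpos.le) ?_ ?_
        · rw [div_lt_one hpos]
          linarith
        · have e1 : A + s • d = N + (s - ε) • d := by rw [hNdef]; module
          rw [e1, hyN]
          have e2 : (-u / (ε - s)) * (s - ε) = u := by
            field_simp
            ring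
          have e3 : (1 - -u / (ε - s)) • N + (-u / (ε - s)) • (N + (s - ε) • d) =
              N + ((-u / (ε - s)) * (s - ε)) • d := by module
          rw [e3, e2]
      · intro s hs hsK
        apply hno
        have hpos : 0 < -s := by linarith
        refine ov_mix hcv (N - B) N y (N + s • d) t (-1) (-u / (-s)) hi' ?_
          (div_nonneg (by linarith) hpos.le) ?_ ?_
        · have : N + s • d + (-1 : ℝ) • (N - B) = B + s • d := by module
          rw [this]
          exact hsK
        · rw [div_lt_one hpos]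
          linarith
        · rw [hyN]
          have hs0 : s ≠ 0 := by
            intro h
            rw [h] at hpos
            simp at hpos
          have e2 : (-u / (-s)) * s = u := by
            field_simp
          have e3 : (1 - -u / (-s)) • N + (-u / (-s)) • (N + s • d) =
              N + ((-u / (-s)) * s) • d := by module
          rw [e3, e2]
    · -- u = 0
      refine ⟨-t, ?_⟩
      have : y + (-t) • (N - B) = N - t • (N - B) := by rw [hyN, hu0]; module
      rw [this]
      exact hi'
    · -- u > 0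
      by_contra hno
      apply hnU
      refine ⟨u, hy, hyz, ?_, ?_⟩
      · intro s hs hsK
        apply hno
        have hpos : 0 < s - ε := by linarith
        refine ov_mix hcv (N - B) N y (A + s • d) t 0 (u / (s - ε)) hi' (by simpa using hsK)
          (div_nonneg (by linarith) hpos.le) ?_ ?_
        · rw [div_lt_one hpos]
          linarith
        · have e1 : A + s • d = N + (s - ε) • d := by rw [hNdef]; module
          rw [e1, hyN]
          have e2 : (u / (s - ε)) * (s - ε) = u := by
            field_simp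
          have e3 : (1 - u / (s - ε)) • N + (u / (s - ε)) • (N + (s - ε) • d) =
              N + ((u / (s - ε)) * (s - ε)) • d := by module
          rw [e3, e2]
      · intro s hs hsK
        apply hno
        have hpos : 0 < s := by linarith
        refine ov_mix hcv (N - B) N y (N + s • d) t (-1) (u / s) hi' ?_
          (div_nonneg (by linarith) hpos.le) ?_ ?_
        · have : N + s • d + (-1 : ℝ) • (N - B) = B + s • d := by module
          rw [this]
          exact hsK
        · rw [div_lt_one hpos]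
          linarith
        · rw [hyN]
          have e2 : (u / s) * s = u := by
            field_simp
          have e3 : (1 - u / s) • N + (u / s) • (N + s • d) =
              N + ((u / s) * s) • d := by module
          rw [e3, e2]

end Pool.Agent.H496.TW
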